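import Pool.Agent.W811.Dos.Stm
import Pool.Agent.W965.Stu.Tr

/-!
DD-LS: limits of points with `|y_M| ≤ 1` are in the spectrum.
-/

set_option autoImplicit false

namespace Pool.Agent.W101.Dos

open Pool.Agent.W811.Dos Pool.Agent.W811.Stu Pool.Agent.W965.Stu

theorem ls : TLs := by
  intro lam _ d hd E0 h
  by_contra hE
  obtain ⟨m, hm⟩ := exists_esc hd hE
  obtain ⟨ε, hε, hball⟩ := Metric.isOpen_iff.1 (esc_open lam d m) E0 hm
  obtain ⟨M, hM, E, hEE, hy⟩ := h ε hε m
  have h1 : Esc (orb d (lin lam E) m) := hball (by rw [Metric.mem_ball, Real.dist_eq]; exact hEE)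
  have h2 := esc_all hd h1 (M - m)
  rw [Nat.add_sub_cancel' hM] at h2
  exact absurd h2.1 (not_lt.2 hy)

end Pool.Agent.W101.Dos
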